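import Pool.Agent.helper1.TW.SpecA

/-!
# Row tw:PG1
-/

set_option autoImplicit false

open Complex MeasureTheory Set
open scoped ComplexConjugate

namespace Pool.Agent.TW

open Pool.Agent.ZT (VV gC Bn MC lamA muA hm Sqf)

theorem PG1_pt (hK1 : K1_stmt) (hK2 : K2_stmt) (k n : ℕ) (hk : 3 ≤ k) (hn : 100000 * k ≤ n) (μ : Fin n → ℝ) :
    ∃ C : ℝ, 0 < C ∧ ((∀ j, 0 ≤ μ j) → ∀ (L : ℝ) (v : VV), 1 ≤ L → ∀ j : ℕ, j ≤ 1 → ∀ z : ℝ, 0 < z →
      0 ≤ MC μ L v ∧ ‖gC μ j v z‖ ≤ C * z ^ (-(3 / 5) : ℝ) * MC μ L v ∧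
        (1 ≤ z → ‖gC μ j v z‖ ≤ C * z ^ (-1 + th k) * MC μ L v)) := by
  by_cases hμ : ∀ j, 0 ≤ μ j
  · obtain ⟨C1, hC1, h1⟩ := hK1 (3000 * k) n μ (by omega) (by omega) hμ
    obtain ⟨C2, hC2, h2⟩ := hK2 (3000 * k) n μ (by omega) (by omega) hμ
    have hkR : (3 : ℝ) ≤ k := by exact_mod_cast hk
    have hth : (3 : ℝ) / ((3000 * k : ℕ) : ℝ) = th k := by
      unfold th
      push_cast
      field_simp
      norm_num
    have hth1 : th k ≤ 2 / 5 := by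
      unfold th
      rw [div_le_iff₀ (by positivity)]
      nlinarith
    refine ⟨2 * C1 + C2, by positivity, ?_⟩
    intro _ L v hL j hj z hz
    obtain ⟨-, -, h1c, -⟩ := h1 L v hL
    have hM : 0 ≤ MC μ L v := by
      have g1 := (norm_nonneg _).trans (h1c 0 (by omega) 1 one_pos)
      rw [Real.one_rpow, Real.one_rpow] at g1
      by_contra hcon
      push Not at hcon
      nlinarith
    have hz35 : 0 < z ^ (-(3 / 5) : ℝ) := Real.rpow_pos_of_pos hz _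
    have hbig : 1 ≤ z → ‖gC μ j v z‖ ≤ C2 * z ^ (-1 + th k) * MC μ L v := by
      intro hz1
      have g1 := h2 L v hL j hj z hz1
      rwa [hth] at g1
    refine ⟨hM, ?_, ?_⟩
    · rcases le_total z 1 with hz1 | hz1
      · have g1 := h1c j (by omega) z hz
        have g2 : z ^ (-(1 / 20) : ℝ) ≤ z ^ (-(3 / 5) : ℝ) :=
          Real.rpow_le_rpow_of_exponent_ge hz hz1 (by norm_num)
        refine g1.trans (mul_le_mul_of_nonneg_right ?_ hM)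
        nlinarith
      · have g1 := hbig hz1
        have g2 : z ^ (-1 + th k) ≤ z ^ (-(3 / 5) : ℝ) :=
          Real.rpow_le_rpow_of_exponent_le hz1 (by linarith)
        refine g1.trans (mul_le_mul_of_nonneg_right ?_ hM)
        nlinarith [mul_pos hC1 hz35]
    · intro hz1
      have g1 := hbig hz1
      have g2 : 0 < z ^ (-1 + th k) := Real.rpow_pos_of_pos hz _
      refine g1.trans (mul_le_mul_of_nonneg_right ?_ hM)
      nlinarith [mul_pos hC1 g2]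
  · exact ⟨1, one_pos, fun h => absurd h hμ⟩

/-- the sum over `d` -/
theorem PG1_sum (n : ℕ) (a X : ℕ → ℂ) (ω : ℂ) (μ : Fin n → ℝ) (j : ℕ) (w : VV) (y K e : ℝ) (ha0 : a 0 = 0)
    (hω : ‖ω‖ = 1) (hX : ∀ m, ‖X m‖ ≤ 1) (hy : 0 < y) (hK : 0 ≤ K) (he : e ≤ -(3 / 5))
    (hA : Summable fun d : ℕ => ‖a d‖ * (d : ℝ) ^ (-(3 / 5) : ℝ))
    (hs : Summable (fun d : ℕ => ‖a d * X d * gC μ j w (d * y)‖))
    (hg : ∀ d : ℕ, 1 ≤ d → ‖gC μ j w (d * y)‖ ≤ K * ((d : ℝ) * y) ^ e) :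
    ‖ω * ∑' d : ℕ, a d * X d * gC μ j w (d * y)‖ ≤ K * y ^ e * ∑' d : ℕ, ‖a d‖ * (d : ℝ) ^ (-(3 / 5) : ℝ) := by
  rw [norm_mul, hω, one_mul]
  have hye : 0 < y ^ e := Real.rpow_pos_of_pos hy _
  refine (norm_tsum_le_tsum_norm hs).trans ?_
  rw [← tsum_mul_left]
  refine hs.tsum_le_tsum ?_ (hA.mul_left _)
  intro d
  rcases Nat.eq_zero_or_pos d with hd | hd
  · subst hd
    rw [ha0]
    simp
  · have hd1 : (1 : ℝ) ≤ d := by exact_mod_cast hd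
    have h1 := hg d hd
    rw [Real.mul_rpow (by linarith) hy.le] at h1
    have h2 : (d : ℝ) ^ e ≤ (d : ℝ) ^ (-(3 / 5) : ℝ) := Real.rpow_le_rpow_of_exponent_le hd1 he
    rw [norm_mul, norm_mul]
    calc ‖a d‖ * ‖X d‖ * ‖gC μ j w (d * y)‖ ≤ ‖a d‖ * 1 * (K * ((d : ℝ) ^ (-(3 / 5) : ℝ) * y ^ e)) := by
          apply mul_le_mul (mul_le_mul_of_nonneg_left (hX d) (norm_nonneg _)) _ (norm_nonneg _) (by positivity)
          refine h1.trans (mul_le_mul_of_nonneg_left (mul_le_mul_of_nonneg_right h2 hye.le) hK)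
      _ = K * y ^ e * (‖a d‖ * (d : ℝ) ^ (-(3 / 5) : ℝ)) := by ring

theorem PG1 (hK1 : K1_stmt) (hK2 : K2_stmt) (hGTF : GTF_stmt) : PG1_stmt := by
  intro k n μs a b hk hn hctr
  choose Cf hCf hCf' using PG1_pt hK1 hK2 k n hk hn
  have hkR : (3 : ℝ) ≤ k := by exact_mod_cast hk
  have hth1 : th k ≤ 2 / 5 := by
    unfold th
    rw [div_le_iff₀ (by positivity)]
    nlinarith
  have hA : Summable fun d : ℕ => ‖a d‖ * (d : ℝ) ^ (-(3 / 5) : ℝ) := by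
    refine Summable.of_nonneg_of_le (fun d => by positivity) (fun d => ?_) hctr.sm
    have : 0 ≤ (d : ℝ) ^ (-(3 / 5) : ℝ) := by positivity
    nlinarith [norm_nonneg (b d)]
  have hA0 : 0 ≤ ∑' d : ℕ, ‖a d‖ * (d : ℝ) ^ (-(3 / 5) : ℝ) := tsum_nonneg fun d => by positivity
  have hC0 : ∀ μ ∈ μs, Cf μ ≤ 1 + ∑ μ ∈ μs, Cf μ := by
    intro μ hμ
    have g1 : Cf μ ≤ ∑ μ ∈ μs, Cf μ := Finset.single_le_sum (f := Cf) (fun x _ => (hCf x).le) hμ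
    linarith
  have hC0' : 0 < 1 + ∑ μ ∈ μs, Cf μ := by
    have : 0 ≤ ∑ μ ∈ μs, Cf μ := Finset.sum_nonneg fun x _ => (hCf x).le
    linarith
  refine ⟨(1 + ∑ μ ∈ μs, Cf μ) * (1 + ∑' d : ℕ, ‖a d‖ * (d : ℝ) ^ (-(3 / 5) : ℝ)), by positivity, ?_⟩
  intro ι D hDa hDb hr hω hX hμs hμ0 L x i w j hL hx hj
  obtain ⟨hρ, hsum, -⟩ := hGTF n ι D (by omega) (by rw [hDa, hDb]; exact hctr) hr hω hX hμ0
  have hρ0 : 0 < D.rho i := by linarith [hρ i]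
  have hy : 0 < x / D.rho i := div_pos hx hρ0
  have hs := hsum j i w x hx
  rw [hDa] at hs
  have hpt := hCf' (D.μ i) (hμ0 i) L w hL j hj
  have hM : 0 ≤ MC (D.μ i) L w := (hpt 1 one_pos).1
  have hfd : D.f j i w x = D.ω i * ∑' d : ℕ, a d * D.X i d * gC (D.μ i) j w (d * (x / D.rho i)) := by
    unfold Dat.f
    rw [hDa]
  have hCi := hC0 (D.μ i) (hμs i)
  have hfin : ∀ e : ℝ, e ≤ -(3 / 5) → (∀ d : ℕ, 1 ≤ d → ‖gC (D.μ i) j w (d * (x / D.rho i))‖ ≤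
      Cf (D.μ i) * ((d : ℝ) * (x / D.rho i)) ^ e * MC (D.μ i) L w) →
      ‖D.f j i w x‖ ≤ (1 + ∑ μ ∈ μs, Cf μ) * (1 + ∑' d : ℕ, ‖a d‖ * (d : ℝ) ^ (-(3 / 5) : ℝ)) *
        (x / D.rho i) ^ e * MC (D.μ i) L w := by
    intro e he hg
    rw [hfd]
    have hye : 0 < (x / D.rho i) ^ e := Real.rpow_pos_of_pos hy _
    have g1 := PG1_sum n a (D.X i) (D.ω i) (D.μ i) j w (x / D.rho i) (Cf (D.μ i) * MC (D.μ i) L w) e hctr.a0
      (hω i) (hX i) hy (mul_nonneg (hCf _).le hM) he hA hs (by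
        intro d hd
        refine (hg d hd).trans (le_of_eq ?_)
        ring)
    refine g1.trans ?_
    calc Cf (D.μ i) * MC (D.μ i) L w * (x / D.rho i) ^ e * ∑' d : ℕ, ‖a d‖ * (d : ℝ) ^ (-(3 / 5) : ℝ)
        = (Cf (D.μ i) * ∑' d : ℕ, ‖a d‖ * (d : ℝ) ^ (-(3 / 5) : ℝ)) * ((x / D.rho i) ^ e * MC (D.μ i) L w) := by ring
      _ ≤ ((1 + ∑ μ ∈ μs, Cf μ) * (1 + ∑' d : ℕ, ‖a d‖ * (d : ℝ) ^ (-(3 / 5) : ℝ))) *
          ((x / D.rho i) ^ e * MC (D.μ i) L w) := by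
          apply mul_le_mul_of_nonneg_right _ (by positivity)
          exact mul_le_mul hCi (by linarith) hA0 hC0'.le
      _ = _ := by ring
  constructor
  · intro hxρ
    have hy1 : 1 ≤ x / D.rho i := (one_le_div hρ0).2 hxρ
    apply hfin _ (by linarith)
    intro d hd
    have hd1 : (1 : ℝ) ≤ d := by exact_mod_cast hd
    have hz : 1 ≤ (d : ℝ) * (x / D.rho i) := by nlinarith
    exact (hpt _ (by linarith)).2.2 hz
  · intro _
    apply hfin _ le_rfl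
    intro d hd
    have hd1 : (1 : ℝ) ≤ d := by exact_mod_cast hd
    exact (hpt _ (by positivity)).2.1

end Pool.Agent.TW
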