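import Pool.Agent.helper1.TW.SpecB

/-!
# Row tw:RGA
-/

set_option autoImplicit false

open Complex MeasureTheory Set
open scoped ComplexConjugate

namespace Pool.Agent.TW

open Pool.Agent.ZT (VV gC Bn MC cmf cmA cmI lamA muA hm Sqf)

theorem RGA_q (k N₁ : ℕ) (x₁ : ℝ) (hk : 3 ≤ k) (hx : 0 < x₁) (qB : ℝ) : ∃ q₀ : ℝ, 3 ≤ q₀ ∧ qB ≤ q₀ ∧ ∀ q : ℝ, q₀ ≤ q →
    (N₁ : ℝ) ^ k < x₁ * √q ∧ 1 ≤ x₁ ^ 2 * √q ∧ Real.log q ≤ q ^ (1 / (1600 * k) : ℝ) := by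
  have hkR : (3 : ℝ) ≤ k := by exact_mod_cast hk
  have h1 : Filter.Tendsto (fun q : ℝ => x₁ * √q) Filter.atTop Filter.atTop :=
    Filter.Tendsto.const_mul_atTop hx Real.tendsto_sqrt_atTop
  have h2 : Filter.Tendsto (fun q : ℝ => x₁ ^ 2 * √q) Filter.atTop Filter.atTop :=
    Filter.Tendsto.const_mul_atTop (by positivity) Real.tendsto_sqrt_atTop
  have h3 := (isLittleO_log_rpow_atTop (r := (1 / (1600 * k) : ℝ)) (by positivity)).bound (c := 1) one_pos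
  have h4 := (h1.eventually_gt_atTop ((N₁ : ℝ) ^ k)).and ((h2.eventually_ge_atTop 1).and
    (h3.and ((Filter.eventually_ge_atTop (3 : ℝ)).and (Filter.eventually_ge_atTop qB))))
  obtain ⟨q₀, hq₀⟩ := Filter.eventually_atTop.1 h4
  refine ⟨max q₀ (max 3 qB), (le_max_left _ _).trans (le_max_right _ _), (le_max_right _ _).trans (le_max_right _ _), ?_⟩
  intro q hq
  obtain ⟨g1, g2, g3, g4, -⟩ := hq₀ q ((le_max_left _ _).trans hq)
  refine ⟨g1, g2, ?_⟩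
  rw [one_mul, Real.norm_eq_abs, Real.norm_eq_abs, abs_of_nonneg (Real.rpow_nonneg (by linarith) _)] at g3
  exact (le_abs_self _).trans g3

theorem RGA_pow (k s d m : ℕ) (q : ℝ) (hk : 3 ≤ k) (hd : 1 ≤ d) (hm : 1 ≤ m) (hm2 : (m : ℝ) ≤ 4 ^ s * (d : ℝ) ^ 7) (hq : 1 ≤ q) :
    ((d : ℝ) * m / √q) ^ (-1 + 1 / (800 * k) : ℝ) / √q ≤
      4 ^ s * (d : ℝ) ^ (-(9 / 10) : ℝ) * (m : ℝ)⁻¹ * q ^ (-(1 / (1600 * k)) : ℝ) := by
  have hkR : (3 : ℝ) ≤ k := by exact_mod_cast hk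
  have hdR : (1 : ℝ) ≤ d := by exact_mod_cast hd
  have hmR : (1 : ℝ) ≤ m := by exact_mod_cast hm
  have hq0 : 0 < q := by linarith
  have hδ0 : (0 : ℝ) < 1 / (800 * k) := by positivity
  have hδ1 : (1 : ℝ) / (800 * k) ≤ 1 / 80 := by
    apply one_div_le_one_div_of_le (by norm_num)
    nlinarith
  have e1 : ((d : ℝ) * m / √q) ^ (-1 + 1 / (800 * k) : ℝ) / √q =
      ((d : ℝ) * m) ^ (-1 + 1 / (800 * k) : ℝ) * q ^ (-(1 / (1600 * k)) : ℝ) := by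
    rw [Real.div_rpow (by positivity) (Real.sqrt_nonneg _), Real.sqrt_eq_rpow, ← Real.rpow_mul hq0.le, div_div,
      ← Real.rpow_add hq0, div_eq_mul_inv, ← Real.rpow_neg hq0.le]
    congr 2
    field_simp
    ring
  rw [e1]
  apply mul_le_mul_of_nonneg_right _ (Real.rpow_nonneg hq0.le _)
  have e2 : ((d : ℝ) * m) ^ (-1 + 1 / (800 * k) : ℝ) = (d : ℝ)⁻¹ * (m : ℝ)⁻¹ * ((d : ℝ) * m) ^ (1 / (800 * k) : ℝ) := by
    rw [Real.rpow_add (by positivity), Real.rpow_neg_one, mul_inv]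
  have e3 : ((d : ℝ) * m) ^ (1 / (800 * k) : ℝ) ≤ 4 ^ s * (d : ℝ) ^ (1 / 10 : ℝ) := by
    have g1 : (d : ℝ) * m ≤ 4 ^ s * (d : ℝ) ^ (8 : ℝ) := by
      have g2 : (d : ℝ) ^ (8 : ℝ) = (d : ℝ) ^ 8 := by
        have := Real.rpow_natCast (d : ℝ) 8
        push_cast at this
        exact this
      rw [g2]
      calc (d : ℝ) * m ≤ d * (4 ^ s * (d : ℝ) ^ 7) := mul_le_mul_of_nonneg_left hm2 (by positivity)
        _ = _ := by ring
    have g3 : (1 : ℝ) ≤ 4 ^ s := one_le_pow₀ (by norm_num)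
    calc ((d : ℝ) * m) ^ (1 / (800 * k) : ℝ) ≤ (4 ^ s * (d : ℝ) ^ (8 : ℝ)) ^ (1 / (800 * k) : ℝ) :=
          Real.rpow_le_rpow (by positivity) g1 hδ0.le
      _ = (4 ^ s : ℝ) ^ (1 / (800 * k) : ℝ) * (d : ℝ) ^ (8 * (1 / (800 * k)) : ℝ) := by
          rw [Real.mul_rpow (by positivity) (by positivity), ← Real.rpow_mul (by positivity)]
      _ ≤ 4 ^ s * (d : ℝ) ^ (1 / 10 : ℝ) := by
          apply mul_le_mul _ _ (by positivity) (by positivity)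
          · calc (4 ^ s : ℝ) ^ (1 / (800 * k) : ℝ) ≤ (4 ^ s : ℝ) ^ (1 : ℝ) :=
                Real.rpow_le_rpow_of_exponent_le g3 (by linarith)
              _ = _ := Real.rpow_one _
          · exact Real.rpow_le_rpow_of_exponent_le hdR (by linarith)
  have e4 : (d : ℝ) ^ (-(9 / 10) : ℝ) = (d : ℝ)⁻¹ * (d : ℝ) ^ (1 / 10 : ℝ) := by
    rw [← Real.rpow_neg_one, ← Real.rpow_add (by positivity)]
    norm_num
  rw [e2, e4]
  calc (d : ℝ)⁻¹ * (m : ℝ)⁻¹ * ((d : ℝ) * m) ^ (1 / (800 * k) : ℝ) ≤ (d : ℝ)⁻¹ * (m : ℝ)⁻¹ * (4 ^ s * (d : ℝ) ^ (1 / 10 : ℝ)) :=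
        mul_le_mul_of_nonneg_left e3 (by positivity)
    _ = _ := by ring

/-- the sum over all tuples -/
theorem RGA_prod (k s : ℕ) (hdisj : ∀ p l l' : ℕ, p ∈ Pb k l → p ∈ Pb k l' → l = l') (𝓛 : Finset (Fin s → ℕ)) (B : Fin s → ℕ → ℝ)
    (hB0 : ∀ i p, 0 ≤ B i p) (S : Fin s → ℝ) (hs : ∀ i, Summable (B i)) (hS : ∀ i, ∑' p, B i p ≤ S i) :
    ∑ l ∈ 𝓛, ∑ p ∈ Fintype.piFinset (fun i => Pb k (l i)), ∏ i, B i (p i) ≤ ∏ i, S i := by
  classical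
  have hpd : ∀ l ∈ 𝓛, ∀ l' ∈ 𝓛, l ≠ l' → Disjoint (Fintype.piFinset (fun i => Pb k (l i))) (Fintype.piFinset (fun i => Pb k (l' i))) := by
    intro l _ l' _ hne
    rw [Finset.disjoint_left]
    intro p hp hp'
    apply hne
    funext i
    exact hdisj (p i) _ _ (Fintype.mem_piFinset.1 hp i) (Fintype.mem_piFinset.1 hp' i)
  rw [← Finset.sum_biUnion hpd]
  let T : Finset ℕ := 𝓛.biUnion fun l => Finset.univ.biUnion fun i => Pb k (l i)
  have hsub : (𝓛.biUnion fun l => Fintype.piFinset (fun i => Pb k (l i))) ⊆ Fintype.piFinset (fun _ : Fin s => T) := by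
    intro p hp
    obtain ⟨l, hl, hp⟩ := Finset.mem_biUnion.1 hp
    rw [Fintype.mem_piFinset]
    intro i
    exact Finset.mem_biUnion.2 ⟨l, hl, Finset.mem_biUnion.2 ⟨i, Finset.mem_univ _, Fintype.mem_piFinset.1 hp i⟩⟩
  calc ∑ p ∈ 𝓛.biUnion fun l => Fintype.piFinset (fun i => Pb k (l i)), ∏ i, B i (p i)
      ≤ ∑ p ∈ Fintype.piFinset (fun _ : Fin s => T), ∏ i, B i (p i) :=
        Finset.sum_le_sum_of_subset_of_nonneg hsub fun p _ _ => Finset.prod_nonneg fun i _ => hB0 i _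
    _ = ∏ i, ∑ p ∈ T, B i p := by rw [Finset.prod_univ_sum]
    _ ≤ ∏ i, S i := by
        apply Finset.prod_le_prod
        · intro i _
          exact Finset.sum_nonneg fun p _ => hB0 i p
        · intro i _
          exact ((hs i).sum_le_tsum T fun p _ => hB0 i p).trans (hS i)

theorem RGA (hTPB : TPB_stmt) (hWBK : WBK_stmt) (hBEF : BEF_stmt) (_hBNF : BNF_stmt) (hSUP : SUP_stmt) : RGA_stmt := by
  classical
  intro k n N₀ c CG om μs a b hctr hk hn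
  obtain ⟨x₀, hx₀, hx₀1, hT⟩ := hTPB k n N₀ c CG om μs a b hctr hk hn
  refine ⟨x₀, hx₀, hx₀1, ?_⟩
  intro x₁ hx₁ hx₁0 R₀ hR₀
  obtain ⟨CT, hCT, hT⟩ := hT x₁ hx₁ hx₁0
  obtain ⟨CB, qB, hCB, hqB, -, hB⟩ := hBEF k n N₀ c CG om x₁ hk hx₁ (hx₁0.trans hx₀1)
  obtain ⟨hdis, -, hPb, hbl, ⟨N₁, hN₁⟩, -⟩ := hWBK k (by omega)
  obtain ⟨q₀, hq₀3, hq₀B, hq₀⟩ := RGA_q k N₁ x₁ hk hx₁ qB
  refine ⟨max 1 (max CT (4 * CB)), le_max_left _ _, q₀, hq₀3, ?_⟩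
  intro ι D hDa hDb hOk q hq s d u ρ hu v 𝓛 hd h𝓛
  obtain ⟨hq1, hq2, hq3⟩ := hq₀ q hq
  have hq0 : 3 ≤ q := hq₀3.trans hq
  have hL1 : 1 ≤ Real.log q := by
    have h3 : Real.exp 1 ≤ q := by linarith [Real.exp_one_lt_d9]
    exact (Real.le_log_iff_exp_le (by linarith)).2 h3
  have hL0 : 0 < Real.log q := by linarith
  have hd0 : (0 : ℝ) < d := lt_of_lt_of_le (by positivity) hd
  have hd1 : 1 ≤ d := by exact_mod_cast hd0
  have hN0 : 0 ≤ D.N x₁ q v := by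
    obtain ⟨-, -, -, -, -, -, -, h8, -⟩ := hSUP n ι D (by omega) hOk.ctr hOk.fam.r1 hOk.om hOk.fam.bd hOk.pos v
    exact h8 x₁ q hx₁ hq0
  have hρ : ∀ i, 0 ≤ ρ i := fun i => (hu i).1
  have hdisj : ∀ p l l' : ℕ, p ∈ Pb k l → p ∈ Pb k l' → l = l' := by
    intro p l l' h1 h2
    obtain ⟨N, hN, hpN⟩ := (hPb p l).1 h1
    obtain ⟨N', hN', hpN'⟩ := (hPb p l').1 h2
    rw [← hN, ← hN', hdis N N' p hpN hpN']
  -- the functions `‖β i p‖ / p`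
  have hBi := fun i => hB ι D hOk.fam q R₀ (ρ i) (u i) (hq₀B.trans hq) hR₀ (hu i)
  have hprod := RGA_prod k s hdisj 𝓛 (fun i p => ‖D.be om R₀ x₁ q k (u i) p‖ / p) (fun i p => by positivity)
    (fun i => CB * ρ i * Real.log q) (fun i => (hBi i).2.2.2.1) (fun i => (hBi i).2.2.2.2)
  -- one term
  have hterm : ∀ l ∈ 𝓛, ∀ p ∈ Fintype.piFinset (fun i => Pb k (l i)),
      ‖(∏ i, D.be om R₀ x₁ q k (u i) (p i)) * D.T q v (d * ∏ i, p i)‖ ≤
        (CT * 4 ^ s * (d : ℝ) ^ (-(9 / 10) : ℝ) * q ^ (-(1 / (1600 * k)) : ℝ) * D.N x₁ q v) *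
          ∏ i, (‖D.be om R₀ x₁ q k (u i) (p i)‖ / (p i : ℕ)) := by
    intro l hl p hp
    rw [norm_mul, norm_prod]
    by_cases hz : ∃ i, D.be om R₀ x₁ q k (u i) (p i) = 0
    · obtain ⟨i, hi⟩ := hz
      rw [Finset.prod_eq_zero (Finset.mem_univ i) (by rw [hi, norm_zero]), zero_mul]
      have : 0 ≤ q ^ (-(1 / (1600 * k)) : ℝ) := Real.rpow_nonneg (by linarith) _
      positivity
    · push Not at hz
      have hp4 : ∀ i, 1 ≤ p i ∧ p i ≤ 4 * 2 ^ l i := by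
        intro i
        obtain ⟨hpr, -, N, hpN, hNk⟩ := (hBi i).2.2.1 (p i) (hz i)
        obtain ⟨N', hN', hpN'⟩ := (hPb (p i) (l i)).1 (Fintype.mem_piFinset.1 hp i)
        have hNN := hdis N N' (p i) hpN hpN'
        subst hNN
        have hNN₁ : N₁ ≤ N := by
          by_contra hcon
          push Not at hcon
          have g1 : (N : ℝ) ^ k ≤ (N₁ : ℝ) ^ k := pow_le_pow_left₀ (Nat.cast_nonneg _) (by exact_mod_cast hcon.le) _
          linarith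
        have g2 := (hN₁ N (p i) hNN₁ hpN).2.2
        rw [hN', pow_add] at g2
        exact ⟨hpr.pos, by omega⟩
      have hm1 : 1 ≤ ∏ i, p i := Finset.one_le_prod' fun i _ => (hp4 i).1
      have hm2 : ((∏ i, p i : ℕ) : ℝ) ≤ 4 ^ s * (d : ℝ) ^ 7 := by
        have g1 : ∏ i, p i ≤ ∏ i : Fin s, (4 * 2 ^ l i) := Finset.prod_le_prod' fun i _ => (hp4 i).2
        rw [Finset.prod_mul_distrib, Finset.prod_const, Finset.card_univ, Fintype.card_fin, Finset.prod_pow_eq_pow_sum] at g1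
        have g2 : ∏ i, p i ≤ 4 ^ s * d ^ 7 := g1.trans (Nat.mul_le_mul_left _ (h𝓛 l hl))
        exact_mod_cast g2
      have hsq : 0 < √q := Real.sqrt_pos.2 (by linarith)
      have hsq2 : √q * √q = q := Real.mul_self_sqrt (by linarith)
      have hdsq : √q ≤ d := by
        have g1 : √q ≤ x₁ ^ 2 * q := by
          calc √q = 1 * √q := (one_mul _).symm
            _ ≤ (x₁ ^ 2 * √q) * √q := mul_le_mul_of_nonneg_right hq2 hsq.le
            _ = x₁ ^ 2 * q := by rw [mul_assoc, hsq2]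
        exact g1.trans hd
      have hm1R : (1 : ℝ) ≤ ((∏ i, p i : ℕ) : ℝ) := by exact_mod_cast hm1
      have hde : √q ≤ ((d * ∏ i, p i : ℕ) : ℝ) := by
        push_cast
        push_cast at hm1R
        nlinarith
      have hx₁1 : x₁ ≤ 1 := hx₁0.trans hx₀1
      have g3 := hT ι D hDa hDb hOk q v (d * ∏ i, p i) hq0 (by nlinarith)
      have g4 : max 1 (((d * ∏ i, p i : ℕ) : ℝ) / √q) = (d : ℝ) * ((∏ i, p i : ℕ) : ℝ) / √q := by
        rw [max_eq_right ((one_le_div hsq).2 hde)]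
        push_cast
        rfl
      rw [g4] at g3
      have g5 := RGA_pow k s d (∏ i, p i) q hk hd1 hm1 hm2 (by linarith)
      have g6 : ‖D.T q v (d * ∏ i, p i)‖ ≤ CT * (4 ^ s * (d : ℝ) ^ (-(9 / 10) : ℝ) * (((∏ i, p i : ℕ) : ℝ))⁻¹ *
          q ^ (-(1 / (1600 * k)) : ℝ)) * D.N x₁ q v := by
        refine g3.trans ?_
        calc CT * ((d : ℝ) * ((∏ i, p i : ℕ) : ℝ) / √q) ^ (-1 + 1 / (800 * k) : ℝ) * (D.N x₁ q v / √q)
            = CT * (((d : ℝ) * ((∏ i, p i : ℕ) : ℝ) / √q) ^ (-1 + 1 / (800 * k) : ℝ) / √q) * D.N x₁ q v := by ring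
          _ ≤ _ := mul_le_mul_of_nonneg_right (mul_le_mul_of_nonneg_left g5 hCT.le) hN0
      have g7 : ∏ i, (‖D.be om R₀ x₁ q k (u i) (p i)‖ / (p i : ℕ)) =
          (∏ i, ‖D.be om R₀ x₁ q k (u i) (p i)‖) * (((∏ i, p i : ℕ) : ℝ))⁻¹ := by
        rw [Finset.prod_div_distrib, div_eq_mul_inv]
        push_cast
        rfl
      rw [g7]
      calc (∏ i, ‖D.be om R₀ x₁ q k (u i) (p i)‖) * ‖D.T q v (d * ∏ i, p i)‖
          ≤ (∏ i, ‖D.be om R₀ x₁ q k (u i) (p i)‖) * (CT * (4 ^ s * (d : ℝ) ^ (-(9 / 10) : ℝ) * (((∏ i, p i : ℕ) : ℝ))⁻¹ *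
          q ^ (-(1 / (1600 * k)) : ℝ)) * D.N x₁ q v) :=
            mul_le_mul_of_nonneg_left g6 (Finset.prod_nonneg fun i _ => norm_nonneg _)
        _ = _ := by ring
  have hqm : 0 ≤ q ^ (-(1 / (1600 * k)) : ℝ) := Real.rpow_nonneg (by linarith) _
  have hqL : q ^ (-(1 / (1600 * k)) : ℝ) ≤ (Real.log q)⁻¹ := by
    rw [Real.rpow_neg (by linarith)]
    exact inv_anti₀ hL0 hq3
  have hdp : 0 ≤ (d : ℝ) ^ (-(9 / 10) : ℝ) := Real.rpow_nonneg hd0.le _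
  have hsum : ‖∑ l ∈ 𝓛, D.MB q k (fun i => D.be om R₀ x₁ q k (u i)) v d l‖ ≤
      (CT * 4 ^ s * (d : ℝ) ^ (-(9 / 10) : ℝ) * q ^ (-(1 / (1600 * k)) : ℝ) * D.N x₁ q v) *
        ∏ i, (CB * ρ i * Real.log q) := by
    refine (norm_sum_le _ _).trans ?_
    calc ∑ l ∈ 𝓛, ‖D.MB q k (fun i => D.be om R₀ x₁ q k (u i)) v d l‖
        ≤ ∑ l ∈ 𝓛, ∑ p ∈ Fintype.piFinset (fun i => Pb k (l i)),
          (CT * 4 ^ s * (d : ℝ) ^ (-(9 / 10) : ℝ) * q ^ (-(1 / (1600 * k)) : ℝ) * D.N x₁ q v) *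
          ∏ i, (‖D.be om R₀ x₁ q k (u i) (p i)‖ / (p i : ℕ)) := by
          apply Finset.sum_le_sum
          intro l hl
          unfold Dat.MB
          exact (norm_sum_le _ _).trans (Finset.sum_le_sum fun p hp => hterm l hl p hp)
      _ = (CT * 4 ^ s * (d : ℝ) ^ (-(9 / 10) : ℝ) * q ^ (-(1 / (1600 * k)) : ℝ) * D.N x₁ q v) *
          ∑ l ∈ 𝓛, ∑ p ∈ Fintype.piFinset (fun i => Pb k (l i)), ∏ i, (‖D.be om R₀ x₁ q k (u i) (p i)‖ / (p i : ℕ)) := by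
          rw [Finset.mul_sum]
          refine Finset.sum_congr rfl fun l _ => ?_
          rw [Finset.mul_sum]
      _ ≤ _ := mul_le_mul_of_nonneg_left hprod (by positivity)
  refine hsum.trans ?_
  have hKT : CT ≤ max 1 (max CT (4 * CB)) := (le_max_left _ _).trans (le_max_right _ _)
  have hKB : 4 * CB ≤ max 1 (max CT (4 * CB)) := (le_max_right _ _).trans (le_max_right _ _)
  have hK1 : 1 ≤ max 1 (max CT (4 * CB)) := le_max_left _ _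
  generalize max 1 (max CT (4 * CB)) = K at *
  have e1 : ∏ i, (CB * ρ i * Real.log q) = CB ^ s * (∏ i, ρ i) * Real.log q ^ s := by
    rw [Finset.prod_mul_distrib, Finset.prod_mul_distrib, Finset.prod_const, Finset.prod_const, Finset.card_univ,
      Fintype.card_fin]
  have hρp : 0 ≤ ∏ i, ρ i := Finset.prod_nonneg fun i _ => hρ i
  rw [e1]
  calc CT * 4 ^ s * (d : ℝ) ^ (-(9 / 10) : ℝ) * q ^ (-(1 / (1600 * k)) : ℝ) * D.N x₁ q v * (CB ^ s * (∏ i, ρ i) * Real.log q ^ s)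
      = CT * ((4 * CB) * Real.log q) ^ s * q ^ (-(1 / (1600 * k)) : ℝ) * ((∏ i, ρ i) * (d : ℝ) ^ (-(9 / 10) : ℝ) * D.N x₁ q v) := by
        rw [mul_pow, mul_pow]
        ring
    _ ≤ K * (K * Real.log q) ^ s * (Real.log q)⁻¹ * ((∏ i, ρ i) * (d : ℝ) ^ (-(9 / 10) : ℝ) * D.N x₁ q v) := by
        apply mul_le_mul_of_nonneg_right _ (by positivity)
        apply mul_le_mul _ hqL hqm (by positivity)
        apply mul_le_mul hKT _ (by positivity) (by linarith)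
        exact pow_le_pow_left₀ (by positivity) (mul_le_mul_of_nonneg_right hKB hL0.le) s
    _ = _ := by
        rw [div_eq_mul_inv]
        ring

end Pool.Agent.TW
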